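import Mathlib

/-! The sum of `# 2 Cl(K)[4]` over imaginary quadratic fields. -/

set_option autoImplicit false

namespace Pool.Agent.MP_5d10af_nt.H69

open NumberField

/-- The order of `2 Cl(K)[4] = {2 x : x ∈ Cl(K), 4 x = 0}`; Mathlib writes the class group
multiplicatively. -/
noncomputable def twoCl4 (K : Type) [Field K] : ℕ :=
  Set.ncard ((fun x : ClassGroup (RingOfIntegers K) => x ^ 2) '' {x | x ^ 4 = 1})

/-- The imaginary quadratic subfields of the complex numbers whose discriminant has absolute value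
less than `X`. -/
def imagQuad (X : ℝ) : Set (IntermediateField ℚ ℂ) :=
  {K | ∃ _ : NumberField K, Module.finrank ℚ K = 2 ∧ IsTotallyComplex K ∧ |(discr K : ℝ)| < X}

/-- The sum `S(X)`. -/
noncomputable def S (X : ℝ) : ℝ := ∑ᶠ K ∈ imagQuad X, (twoCl4 K : ℝ)

end Pool.Agent.MP_5d10af_nt.H69
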