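import Pool.Agent.MP_5d10af_nt.Genus
import Pool.Agent.MP_5d10af_nt.H69.Defs

/-! Imaginary quadratic subfields of the complex numbers are classified by the discriminant. -/

set_option autoImplicit false

namespace Pool.Agent.MP_5d10af_nt.H69

open NumberField

theorem fund_gen (K : Type) [Field K] [NumberField K] (hK : Module.finrank ℚ K = 2) :
    ∃ a b : ℤ, Fund a b ∧ ∃ w : K, w * w = a + b * w ∧ ∀ q : ℚ, w ≠ q := by
  obtain ⟨β, hβ⟩ : ∃ β : K, ∀ q : ℚ, β ≠ q := by
    by_contra hcon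
    push Not at hcon
    have hs : Function.Surjective (Algebra.linearMap ℚ K) := fun x => by
      obtain ⟨q, hq⟩ := hcon x
      exact ⟨q, by simp [hq]⟩
    have := LinearMap.finrank_le_finrank_of_surjective hs
    simp [hK] at this
  obtain ⟨p, q, hpq⟩ : ∃ p q : ℚ, β * β = p + q * β := by
    have hl : LinearIndependent ℚ ![(1 : K), β] := by
      rw [LinearIndependent.pair_iff]
      intro s t hst
      by_cases t0 : t = 0
      · subst t0; simpa using hst
      · exfalso
        apply hβ (-s / t)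
        have : (t : K) ≠ 0 := by exact_mod_cast t0
        simp only [Algebra.smul_def, eq_ratCast, mul_one] at hst
        push_cast
        field_simp
        linear_combination hst
    have hsp := hl.span_eq_top_of_card_eq_finrank' (by simp [hK])
    have : β * β ∈ Submodule.span ℚ (Set.range ![(1 : K), β]) := by rw [hsp]; trivial
    rw [Matrix.range_cons_cons_empty, Submodule.mem_span_pair] at this
    obtain ⟨p, q, h⟩ := this
    exact ⟨p, q, by rw [← h]; simp [Algebra.smul_def]⟩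
  set c : ℚ := q ^ 2 + 4 * p with hc
  have hγ : (2 * β - q) ^ 2 = (c : K) := by rw [hc]; push_cast; linear_combination 4 * hpq
  have c0 : c ≠ 0 := by
    intro h0
    rw [h0] at hγ
    apply hβ (q / 2)
    have : 2 * β - q = 0 := by simpa using hγ
    push_cast
    linear_combination this / 2
  have n0 : (c.num * c.den).natAbs ≠ 0 := by
    simp [c0, c.den_ne_zero]
  obtain ⟨s, k, -, k0, hk, hs⟩ := Nat.sq_mul_squarefree_of_pos (Nat.pos_of_ne_zero n0)
  obtain ⟨D, hD, hDs⟩ : ∃ D : ℤ, (k : ℤ) ^ 2 * D = c.num * c.den ∧ Squarefree D := by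
    have hk' : (k : ℤ) ^ 2 * s = |c.num * c.den| := by
      rw [← Int.natCast_natAbs, ← hk]; push_cast; ring
    rcases abs_choice (c.num * c.den) with h | h
    · exact ⟨s, hk'.trans h, Int.squarefree_natCast.2 hs⟩
    · refine ⟨-s, by linarith, ?_⟩
      rw [← Int.squarefree_natAbs]; simpa using hs
  have k0' : (k : K) ≠ 0 := by exact_mod_cast k0.ne'
  have d0 : (c.den : K) ≠ 0 := by exact_mod_cast c.den_ne_zero
  set θ : K := (2 * β - q) * c.den / k with hθ
  have hθ2 : θ * θ = D := by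
    have e1 : (k : K) ^ 2 * D = c.num * c.den := by exact_mod_cast congrArg (Int.cast : ℤ → K) hD
    have e2 : (c : K) * c.den = c.num := by exact_mod_cast congrArg (Rat.cast : ℚ → K) c.mul_den_eq_num
    rw [hθ]
    field_simp
    rw [hγ, e1, ← e2]; ring
  have hθq : ∀ r : ℚ, θ ≠ r := by
    intro r hr
    apply hβ ((r * k / c.den + q) / 2)
    push_cast
    rw [← hr, hθ]
    field_simp
    ring
  have h4 : D % 4 = 1 ∨ D % 4 = 2 ∨ D % 4 = 3 := by
    have : ¬ (2 * 2 : ℤ) ∣ D := fun h => by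
      have := Int.isUnit_iff.1 (hDs 2 h); omega
    omega
  rcases h4 with h4 | h4
  · obtain ⟨a, ha⟩ : ∃ a : ℤ, D = 4 * a + 1 := ⟨D / 4, by omega⟩
    have hF : Fund a 1 := Or.inl ⟨rfl, ha ▸ hDs⟩
    refine ⟨a, 1, hF, (1 + θ) / 2, ?_, ?_⟩
    · rw [ha] at hθ2
      push_cast at hθ2 ⊢
      linear_combination hθ2 / 4
    · intro r hr
      apply hθq (2 * r - 1)
      push_cast
      linear_combination 2 * hr
  · have hF : Fund D 0 := Or.inr ⟨rfl, hDs, h4⟩
    exact ⟨D, 0, hF, θ, by simpa using hθ2, hθq⟩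

lemma fund_unique {a b a' b' : ℤ} (h : Fund a b) (h' : Fund a' b')
    (e : b ^ 2 + 4 * a = b' ^ 2 + 4 * a') : a = a' ∧ b = b' := by
  rcases h with ⟨rfl, -⟩ | ⟨rfl, -⟩ <;> rcases h' with ⟨rfl, -⟩ | ⟨rfl, -⟩ <;> omega

/-- The count in the form used by the landed proof. -/
noncomputable def cntCl (K : Type) [Field K] : ℕ :=
  Nat.card {y : ClassGroup (RingOfIntegers K) //
    ∃ x : ClassGroup (RingOfIntegers K), x ^ 4 = 1 ∧ x ^ 2 = y}

lemma twoCl4_eq (K : Type) [Field K] : twoCl4 K = cntCl K := rfl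

lemma cntCl_congr {K L : Type} [Field K] [Field L] (e : RingOfIntegers K ≃+* RingOfIntegers L) :
    cntCl K = cntCl L := by
  let φ := ClassGroup.mulEquiv e
  refine Nat.card_congr (φ.toEquiv.subtypeEquiv fun y => ⟨?_, ?_⟩)
  · rintro ⟨x, h4, rfl⟩
    exact ⟨φ x, by rw [← map_pow, h4, map_one], by rw [← map_pow]; rfl⟩
  · rintro ⟨x, h4, h2⟩
    refine ⟨φ.symm x, by rw [← map_pow, h4, map_one], ?_⟩
    rw [← map_pow, h2]
    exact φ.symm_apply_apply y

lemma cntCl_of_discr (K L : Type) [Field K] [NumberField K] [Field L] [NumberField L]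
    (hK : Module.finrank ℚ K = 2) (hL : Module.finrank ℚ L = 2) (h : discr K = discr L) :
    cntCl K = cntCl L := by
  obtain ⟨a, b, hF, w, hw, hq⟩ := fund_gen K hK
  obtain ⟨a', b', hF', w', hw', hq'⟩ := fund_gen L hL
  obtain ⟨hd, _, ⟨e⟩⟩ := structure_thm hF K hK w hw hq
  obtain ⟨hd', _, ⟨e'⟩⟩ := structure_thm hF' L hL w' hw' hq'
  obtain ⟨rfl, rfl⟩ := fund_unique hF hF' (by rw [← hd, ← hd', h])
  exact cntCl_congr (e.trans e'.symm)

open Classical in
/-- The count as a function of the discriminant. -/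
noncomputable def Fd (d : ℤ) : ℕ :=
  if h : ∃ (K : Type) (_ : Field K) (_ : NumberField K), Module.finrank ℚ K = 2 ∧ discr K = d then
    @cntCl h.choose h.choose_spec.choose
  else 0

lemma isF_Fd : IsF Fd := by
  intro d
  refine ⟨fun K _ _ hK hd => ?_, fun h => dif_neg h⟩
  have h : ∃ (K : Type) (_ : Field K) (_ : NumberField K),
      Module.finrank ℚ K = 2 ∧ discr K = d := ⟨K, _, inferInstance, hK, hd⟩
  rw [Fd, dif_pos h]
  obtain ⟨h1, h2, h3⟩ := h.choose_spec.choose_spec
  exact @cntCl_of_discr _ K h.choose_spec.choose h1 _ _ h2 hK (h3.trans hd.symm)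

lemma complex_iff (K : Type) [Field K] [NumberField K] (hK : Module.finrank ℚ K = 2) :
    IsTotallyComplex K ↔ discr K < 0 := by
  have h1 := sign_discr K
  have h2 := InfinitePlace.card_add_two_mul_card_eq_rank K
  rw [hK] at h2
  rw [← nrRealPlaces_eq_zero_iff, ← Int.sign_eq_neg_one_iff_neg, h1]
  constructor
  · intro h
    have : InfinitePlace.nrComplexPlaces K = 1 := by omega
    rw [this, pow_one]
  · intro h
    by_contra h0
    have : InfinitePlace.nrComplexPlaces K = 0 := by omega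
    rw [this] at h
    norm_num at h

lemma inf_eq {K L : IntermediateField ℚ ℂ} (hK : Module.finrank ℚ K = 2) {w : ℂ} (h1 : w ∈ K)
    (h2 : w ∈ L) (hq : ∀ q : ℚ, w ≠ q) : K ⊓ L = K := by
  have : FiniteDimensional ℚ K := Module.finite_of_finrank_eq_succ hK
  refine IntermediateField.eq_of_le_of_finrank_eq inf_le_left ?_
  have hd := IntermediateField.finrank_dvd_of_le_right (inf_le_left : K ⊓ L ≤ K)
  rw [hK] at hd ⊢
  rcases (Nat.dvd_prime Nat.prime_two).1 hd with h | h
  · rw [IntermediateField.finrank_eq_one_iff] at h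
    have : w ∈ K ⊓ L := ⟨h1, h2⟩
    rw [h, IntermediateField.mem_bot] at this
    obtain ⟨q, hq'⟩ := this
    exact absurd hq'.symm (hq q)
  · exact h

lemma eq_of_discr (K L : IntermediateField ℚ ℂ) [NumberField K] [NumberField L]
    (hK : Module.finrank ℚ K = 2) (hL : Module.finrank ℚ L = 2) (h : discr K = discr L) :
    K = L := by
  obtain ⟨a, b, hF, w, hw, hq⟩ := fund_gen K hK
  obtain ⟨a', b', hF', w', hw', hq'⟩ := fund_gen L hL
  have hd := (structure_thm hF K hK w hw hq).1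
  have hd' := (structure_thm hF' L hL w' hw' hq').1
  obtain ⟨rfl, rfl⟩ := fund_unique hF hF' (by rw [← hd, ← hd', h])
  have e1 : (w : ℂ) * w = a + b * w := by exact_mod_cast congrArg (fun z : K => (z : ℂ)) hw
  have e2 : (w' : ℂ) * w' = a + b * w' := by exact_mod_cast congrArg (fun z : L => (z : ℂ)) hw'
  have hL' : (w : ℂ) ∈ L := by
    have : ((w : ℂ) - w') * ((w : ℂ) - (b - w')) = 0 := by linear_combination e1 - e2
    rcases mul_eq_zero.1 this with h0 | h0
    · rw [sub_eq_zero.1 h0]; exact w'.2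
    · rw [sub_eq_zero.1 h0]; exact sub_mem (intCast_mem L b) w'.2
  have hq2 : ∀ q : ℚ, (w : ℂ) ≠ q := fun q hc => hq q (Subtype.ext (by simpa using hc))
  rw [← inf_eq hK w.2 hL' hq2, inf_comm, inf_eq hL hL' w.2 hq2]

lemma exists_sub (K : Type) [Field K] [NumberField K] :
    ∃ (L : IntermediateField ℚ ℂ) (_ : NumberField L),
      Module.finrank ℚ L = Module.finrank ℚ K ∧ discr L = discr K := by
  let φ : K →ₐ[ℚ] ℂ := IsAlgClosed.lift
  let e : K ≃ₐ[ℚ] φ.fieldRange := AlgEquiv.ofInjectiveField φ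
  have : NumberField φ.fieldRange := NumberField.of_ringEquiv K _ e.toRingEquiv
  exact ⟨φ.fieldRange, this, e.toLinearEquiv.finrank_eq.symm,
    (discr_eq_discr_of_algEquiv K e).symm⟩

open Classical in
theorem S_eq (X : ℝ) : S X = ∑ d ∈ Finset.Ioo (-⌈X⌉) 0, (Fd d : ℝ) := by
  let D : IntermediateField ℚ ℂ → ℤ := fun K => if h : NumberField K then @discr K _ h else 0
  let T : Finset ℤ := (Finset.Ioo (-⌈X⌉) 0).filter fun d =>
    ∃ (K : Type) (_ : Field K) (_ : NumberField K), Module.finrank ℚ K = 2 ∧ discr K = d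
  have hb : Set.BijOn D (imagQuad X) (T : Set ℤ) := by
    refine ⟨?_, ?_, ?_⟩
    · rintro K ⟨hn, h2, hc, hX⟩
      have hneg := (complex_iff K h2).1 hc
      simp only [D, dif_pos hn, T, Finset.coe_filter, Finset.mem_Ioo, Set.mem_ofPred_eq]
      refine ⟨⟨?_, hneg⟩, K, _, hn, h2, rfl⟩
      rw [neg_lt, Int.lt_ceil]
      push_cast
      exact lt_of_le_of_lt (neg_le_abs _) hX
    · rintro K ⟨hn, h2, -, -⟩ L ⟨hn', h2', -, -⟩ h
      simp only [D, dif_pos hn, dif_pos hn'] at h
      exact eq_of_discr K L h2 h2' h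
    · intro d hd
      simp only [T, Finset.coe_filter, Finset.mem_Ioo, Set.mem_ofPred_eq] at hd
      obtain ⟨⟨h1, h0⟩, K, _, _, h2, rfl⟩ := hd
      obtain ⟨L, hn, hr, hd⟩ := exists_sub K
      refine ⟨L, ⟨hn, hr.trans h2, (complex_iff L (hr.trans h2)).2 (hd ▸ h0), ?_⟩, ?_⟩
      · rw [hd, abs_of_neg (by exact_mod_cast h0)]
        rw [neg_lt, Int.lt_ceil] at h1
        exact_mod_cast h1
      · simp only [D, dif_pos hn, hd]
  rw [S, finsum_mem_eq_of_bijOn (g := fun d => (Fd d : ℝ)) D hb, finsum_mem_coe_finset]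
  · refine Finset.sum_filter_of_ne fun d _ hd => ?_
    by_contra h
    exact hd (by rw [(isF_Fd d).2 h]; simp)
  · rintro K ⟨hn, h2, -, -⟩
    simp only [D, dif_pos hn]
    rw [(isF_Fd _).1 K h2 rfl]
    rfl

end Pool.Agent.MP_5d10af_nt.H69
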